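import Pool.Agent.H995R3.SN.Main

/-!
# Cofinality of the strong measure zero ideal and the bounding number

`SMZ X`: the set `X` of reals has strong measure zero. `cofSN`, `nonSN`: cofinality and
uniformity of the ideal of strong measure zero sets of reals; `bNum`, `dNum`: the bounding and
the dominating number.

If `κ` functions are given such that every function eventually dominates fewer than `non(SN)` of
them then `κ < cof(SN)`. So `𝔟 ≤ non(SN)` implies `𝔟 < cof(SN)`, and `𝔡 ≤ non(SN)` implies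
`𝔡 < cof(SN)`. In particular `𝔟 = ℵ₁` implies `ℵ₁ < cof(SN)`, and in a model of
`cof(SN) = ℵ₁` we have `non(SN) = ℵ₁ < 𝔟`.
-/

set_option autoImplicit false

namespace Pool.Agent.Results.MP_6906cd_lc.BoundingNumber

open Cardinal H995SN

theorem result :
    (∀ (ι : Type) (g : ι → ℕ → ℕ), (∀ h : ℕ → ℕ, #{i : ι | EvDom (g i) h} < nonSN) →
      #ι < cofSN) ∧
    (bNum ≤ nonSN → bNum < cofSN) ∧
    (dNum ≤ nonSN → dNum < cofSN) ∧
    (cofSN ≤ ℵ₁ → cofSN = ℵ₁ ∧ nonSN = ℵ₁ ∧ ℵ₁ < bNum) ∧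
    (bNum = ℵ₁ → ℵ₁ < cofSN) := by
  refine ⟨fun ι g hg => lt_cofSN g hg, bNum_lt_cofSN, dNum_lt_cofSN, of_cofSN_le, fun h => ?_⟩
  by_contra hc
  exact absurd h (ne_of_gt (of_cofSN_le (not_lt.1 hc)).2.2)

end Pool.Agent.Results.MP_6906cd_lc.BoundingNumber
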