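import Pool.Agent.H995R3.SN.Chain

/-!
# What a model of `cof(SN) = ℵ₁` looks like

`SMZ X`: the set `X` of reals has strong measure zero. `cofSN`: cofinality of the ideal `SN` of
strong measure zero sets of reals; `bNum`: the bounding number; `W1`: the well-ordered set `ω₁`.
`Ecl c X` (for `c : ℝ → ℝ^ω`) is the set of all reals `x` such that for all positive `ε_n` there is
`y ∈ X` with `|x - c(y)(n)| < ε_n` for infinitely many `n`.

(`cof(SN) ≥ ℵ₁` always holds, so `cofSN ≤ ℵ₁` says that `cof(SN) = ℵ₁`.)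

If `cof(SN) = ℵ₁` then `SN` is closed under Borel images of products and under the operations
`Ecl c` for Borel `c`; there is a dominating family all of whose Borel images are `SMZ`; and `SN`
is generated by an increasing `ω₁`-chain of subfields of `ℝ`. Moreover `cof(SN) = ℵ₁` holds if and
only if `ℵ₁ < 𝔟` and `ℝ` is the union of an increasing `ω₁`-chain of `SMZ` sets which is closed
under `Ecl c`, for a given Borel surjection `c : ℝ → ℝ^ω`.
-/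

set_option autoImplicit false

namespace Pool.Agent.Results.MP_6906cd_lc.ChainsOfFields

open Cardinal H995SN

theorem result :
    (cofSN ≤ ℵ₁ → ∀ ψ : ℝ × ℝ → ℝ, Measurable ψ → ∀ X Y : Set ℝ, SMZ X → SMZ Y →
      SMZ (ψ '' (X ×ˢ Y))) ∧
    (cofSN ≤ ℵ₁ → ∀ c : ℝ → ℕ → ℝ, Measurable c → ∀ X : Set ℝ, SMZ X → SMZ (Ecl c X)) ∧
    (cofSN ≤ ℵ₁ → ∃ D : Set (ℕ → ℕ), (∀ f, ∃ g ∈ D, EvDom f g) ∧
      ∀ ψ : (ℕ → ℕ) → ℝ, Measurable ψ → SMZ (ψ '' D)) ∧
    (cofSN ≤ ℵ₁ ↔ ∃ F : W1 → Subfield ℝ, Monotone F ∧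
      ∀ Y : Set ℝ, SMZ Y ↔ ∃ a, Y ⊆ F a) ∧
    (∀ c : ℝ → ℕ → ℝ, Measurable c → Function.Surjective c →
      (cofSN ≤ ℵ₁ ↔ ℵ₁ < bNum ∧ ∃ X : W1 → Set ℝ, Monotone X ∧ (∀ a, SMZ (X a)) ∧
        (⋃ a, X a) = Set.univ ∧ ∀ a, ∃ b, Ecl c (X a) ⊆ X b)) :=
  ⟨fun h _ hψ _ _ hX hY => image2_borel h hψ hX hY, fun h _ hc _ hX => smz_Ecl h hc hX,
    exists_dominating, fields_iff, fun _ h1 h2 => chain_iff h1 h2⟩

end Pool.Agent.Results.MP_6906cd_lc.ChainsOfFields
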